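import Pool.Agent.X171.EL.Stm

open MeasureTheory Set Filter
open scoped ENNReal

namespace Pool.Agent.X176.EL

open Pool.Agent.X171.ED Pool.Agent.X171.LS Pool.Agent.X171.EL Pool.Agent.X171.ED.LpI

/-- the bijection -/
def Eo : Option ℕ ≃ ℕ where
  toFun := fun o => o.elim 0 Nat.succ
  invFun := fun n => Nat.casesOn n none some
  left_inv := by rintro (_ | n) <;> rfl
  right_inv := by rintro (_ | n) <;> rfl

theorem mp_refl : MeasurePreserving (fun t : ℝ => 1 - t) LpI.μ LpI.μ := by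
  have h1 := (Measure.measurePreserving_sub_left (volume : Measure ℝ) 1).restrict_preimage
    (measurableSet_Ioc : MeasurableSet (Ioc (0 : ℝ) 1))
  have h2 : (fun t : ℝ => 1 - t) ⁻¹' Ioc (0 : ℝ) 1 = Ico (0 : ℝ) 1 := by
    ext t
    simp only [mem_preimage, mem_Ioc, mem_Ico]
    constructor
    · rintro ⟨h, h'⟩; constructor <;> linarith
    · rintro ⟨h, h'⟩; constructor <;> linarith
  rw [h2, Measure.restrict_congr_set (Ico_ae_eq_Ioc : Ico (0 : ℝ) 1 =ᵐ[volume] Ioc (0 : ℝ) 1)] at h1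
  exact h1

/-- the reflection -/
noncomputable def R0 : XX →ₗᵢ[ℝ] XX := Lp.compMeasurePreservingₗᵢ ℝ (fun t : ℝ => 1 - t) mp_refl

theorem R0_coe (x : XX) : (R0 x : ℝ → ℝ) =ᵐ[LpI.μ] fun t => x (1 - t) :=
  Lp.coeFn_compMeasurePreserving x mp_refl

theorem R0_R0 (x : XX) : R0 (R0 x) = x := by
  apply Lp.ext
  have h1 := R0_coe (R0 x)
  have h2 := mp_refl.quasiMeasurePreserving.ae_eq_comp (R0_coe x)
  filter_upwards [h1, h2] with t e1 e2
  rw [e1]
  have e3 : (R0 x) (1 - t) = x (1 - (1 - t)) := e2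
  rw [e3]
  congr 1
  ring

/-- the reflection, as an equivalence -/
noncomputable def R : XX ≃ₗᵢ[ℝ] XX := LinearIsometryEquiv.ofSurjective R0 fun x => ⟨R0 x, R0_R0 x⟩

theorem R_apply (x : XX) : R x = R0 x := rfl

theorem R_symm (x : XX) : R.symm x = R0 x := by
  rw [LinearIsometryEquiv.symm_apply_eq, R_apply, R0_R0]

noncomputable def e1 : XX ≃ₗᵢ[ℝ] lp (fun _ : Option ℕ => XX) 1 :=
  (LpI.equiv (p := 1) ENNReal.one_ne_top).trans (reindex (by simp) Eo)

theorem e1_symm (z : XX) : e1.symm (lp.single 1 none z) = psi 1 0 z := by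
  rw [LinearIsometryEquiv.symm_apply_eq]
  apply lp.ext
  funext i
  change _ = (Phi (p := 1) ENNReal.one_ne_top (psi 1 0 z)) (Eo i)
  rw [Phi_psi]
  rcases i with _ | k
  · rw [lp.single_apply_self]
    exact (lp.single_apply_self (E := fun _ : ℕ => XX) 1 0 z).symm
  · rw [lp.single_apply_ne _ _ _ (by simp)]
    exact (lp.single_apply_ne (E := fun _ : ℕ => XX) 1 0 z (Nat.succ_ne_zero k)).symm

theorem psi_coe (z : XX) : (psi 1 0 z : ℝ → ℝ) =ᵐ[LpI.μ]
    indicator (I 0) (fun y => (c 1 0)⁻¹ * z (S 0 y)) :=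
  MemLp.coeFn_toLp (memS (p := 1) (Lp.memLp z) 0)

theorem I0 : I 0 = Ioc (1 / 2 : ℝ) 1 := by
  unfold I r
  norm_num

theorem t_HALF : S_LOC → S_HALF := by
  intro hLOC P hP F h1 h2
  have a1 : ∀ z : XX, P F (psi 1 0 z) = 0 := by
    intro z
    have := hLOC XX XX e1 P hP F (fun z => ?_) z
    · rwa [e1_symm] at this
    · rw [e1_symm]
      apply h1
      filter_upwards [psi_coe z] with t ht hle
      rw [ht, indicator_of_notMem]
      rw [I0, mem_Ioc]
      intro h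
      linarith [h.1]
  have a2 : ∀ z : XX, P F (R0 (psi 1 0 z)) = 0 := by
    intro z
    have := hLOC XX XX (R.trans e1) P hP F (fun z => ?_) z
    · rw [LinearIsometryEquiv.symm_trans] at this
      change P F (R.symm (e1.symm (lp.single 1 none z))) = 0 at this
      rwa [e1_symm, R_symm] at this
    · rw [LinearIsometryEquiv.symm_trans]
      change F (R.symm (e1.symm (lp.single 1 none z))) = 0
      rw [e1_symm, R_symm]
      apply h2
      have h3 := mp_refl.quasiMeasurePreserving.ae_eq_comp (psi_coe z)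
      filter_upwards [R0_coe (psi 1 0 z), h3] with t e2 e3 hle
      rw [e2]
      have e4 : (psi 1 0 z) (1 - t) = indicator (I 0) (fun y => (c 1 0)⁻¹ * z (S 0 y)) (1 - t) := e3
      rw [e4, indicator_of_notMem]
      rw [I0, mem_Ioc]
      intro h
      linarith [h.1]
  let z0 : XX := Lp.const 1 LpI.μ (1 / 2 : ℝ)
  have hz : ∀ᵐ y ∂LpI.μ, y ∈ I 0 → z0 (S 0 y) = 1 / 2 := by
    have b1 : ∀ᵐ y ∂LpI.μ, z0 y = 1 / 2 := Lp.coeFn_const 1 LpI.μ (1 / 2 : ℝ)
    have b2 : ∀ᵐ y ∂(volume.restrict (I 0)), z0 (S 0 y) = 1 / 2 := (qS 0).ae b1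
    exact ae_restrict_of_ae ((ae_restrict_iff' (measI 0)).1 b2)
  have hc : (c 1 0)⁻¹ * (1 / 2 : ℝ) = 1 := by
    unfold c r
    norm_num
  have hp0 : (psi 1 0 z0 : ℝ → ℝ) =ᵐ[LpI.μ] indicator (I 0) (fun _ => (1 : ℝ)) := by
    filter_upwards [psi_coe z0, hz] with t e1 e2
    rw [e1]
    by_cases ht : t ∈ I 0
    · rw [indicator_of_mem ht, indicator_of_mem ht, e2 ht, hc]
    · rw [indicator_of_notMem ht, indicator_of_notMem ht]
  have hone : Lp.const 1 LpI.μ (1 : ℝ) = psi 1 0 z0 + R0 (psi 1 0 z0) := by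
    apply Lp.ext
    have hne : ∀ᵐ t ∂LpI.μ, t ≠ (1 / 2 : ℝ) := by
      rw [ae_iff]
      simp
    have hmem : ∀ᵐ t ∂LpI.μ, t ∈ Ioc (0 : ℝ) 1 := ae_restrict_mem measurableSet_Ioc
    have h3 := mp_refl.quasiMeasurePreserving.ae_eq_comp hp0
    filter_upwards [Lp.coeFn_const 1 LpI.μ (1 : ℝ), Lp.coeFn_add (psi 1 0 z0) (R0 (psi 1 0 z0)),
      R0_coe (psi 1 0 z0), h3, hp0, hne, hmem] with t c1 c2 c3 c4 c5 c6 c7
    have c8 : (psi 1 0 z0) (1 - t) = indicator (I 0) (fun _ => (1 : ℝ)) (1 - t) := c4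
    rw [c1, c2, Pi.add_apply, c3, c8, c5]
    rw [I0]
    rcases lt_or_gt_of_ne c6 with h | h
    · have q1 : t ∉ Ioc (1 / 2 : ℝ) 1 := fun h' => by linarith [h'.1]
      have q2 : 1 - t ∈ Ioc (1 / 2 : ℝ) 1 := ⟨by linarith, by linarith [c7.1]⟩
      rw [indicator_of_notMem q1, indicator_of_mem q2, zero_add]
      rfl
    · have q1 : t ∈ Ioc (1 / 2 : ℝ) 1 := ⟨h, c7.2⟩
      have q2 : 1 - t ∉ Ioc (1 / 2 : ℝ) 1 := fun h' => by linarith [h'.1]
      rw [indicator_of_mem q1, indicator_of_notMem q2, add_zero]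
      rfl
  rw [hone, map_add, a1, a2, add_zero]

end Pool.Agent.X176.EL
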